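import Mathlib

namespace Pool.Agent.Results.MP_e10d7f_nt.Four

/-- A square matrix with entries in `ℕ` is primitive if some power `A ^ N`, `N ≥ 1`, has all
entries positive. -/
def Primitive {n : ℕ} (A : Matrix (Fin n) (Fin n) ℕ) : Prop :=
  ∃ N : ℕ, 1 ≤ N ∧ ∀ i j, 0 < (A ^ N) i j

/-- `l` is the largest modulus of a complex eigenvalue of `A`. -/
def HasSpectralRadius {n : ℕ} (A : Matrix (Fin n) (Fin n) ℕ) (l : ℝ) : Prop :=
  IsGreatest {x : ℝ | ∃ μ ∈ spectrum ℂ (A.map (Nat.cast : ℕ → ℂ)), x = ‖μ‖} l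

/-- The sizes of primitive nonnegative integer matrices with spectral radius `l`. -/
def sizes (l : ℝ) : Set ℕ :=
  {n | ∃ A : Matrix (Fin n) (Fin n) ℕ, Primitive A ∧ HasSpectralRadius A l}

/-- The real roots of `t^3 + 3 t^2 - 15 t - 46`. -/
def realRoots : Set ℝ := {t | t ^ 3 + 3 * t ^ 2 - 15 * t - 46 = 0}

lemma mem_spec {n : ℕ} (M : Matrix (Fin n) (Fin n) ℂ) (μ : ℂ) :
    μ ∈ spectrum ℂ M ↔ (Matrix.scalar (Fin n) μ - M).det = 0 := by
  rw [spectrum.mem_iff, Matrix.isUnit_iff_isUnit_det, isUnit_iff_ne_zero, not_not]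
  rfl

lemma exists_root : ∃ r : ℝ, 388 / 100 ≤ r ∧ r ≤ 39 / 10 ∧ IsGreatest realRoots r := by
  have hc : ContinuousOn (fun t : ℝ => t ^ 3 + 3 * t ^ 2 - 15 * t - 46)
      (Set.Icc (388 / 100) (39 / 10)) := by fun_prop
  have := intermediate_value_Icc (by norm_num : (388 / 100 : ℝ) ≤ 39 / 10) hc
  obtain ⟨r, ⟨h1, h2⟩, h3⟩ := this (show (0 : ℝ) ∈ Set.Icc _ _ by constructor <;> norm_num)
  refine ⟨r, h1, h2, h3, ?_⟩
  intro t ht
  by_contra hlt
  push Not at hlt
  have ht' : t ^ 3 + 3 * t ^ 2 - 15 * t - 46 = 0 := ht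
  have h3' : r ^ 3 + 3 * r ^ 2 - 15 * r - 46 = 0 := h3
  have : (t - r) * (t ^ 2 + t * r + r ^ 2 + 3 * (t + r) - 15) = 0 := by linear_combination ht' - h3'
  rcases mul_eq_zero.mp this with h | h
  · linarith
  · nlinarith

def nf {R : Type*} [CommRing R] (x y z : R) : R :=
  x * ((x + 15 * z) * (x - 3 * y + 24 * z) - (y - 3 * z) * (15 * y + z)) -
  y * (46 * z * (x - 3 * y + 24 * z) - (y - 3 * z) * (46 * y - 138 * z)) +
  z * (46 * z * (15 * y + z) - (x + 15 * z) * (46 * y - 138 * z))

lemma nf_mod : ∀ x y z : ZMod 5, nf x y z = 0 → x = 0 ∧ y = 0 ∧ z = 0 := by decide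

lemma nf_int (m : ℕ) : ∀ x y z : ℤ, x.natAbs + y.natAbs + z.natAbs ≤ m → nf x y z = 0 →
    x = 0 ∧ y = 0 ∧ z = 0 := by
  induction m with
  | zero => intro x y z h _; omega
  | succ m ih =>
    intro x y z h h0
    have h1 : nf (x : ZMod 5) (y : ZMod 5) (z : ZMod 5) = 0 := by
      have := congrArg (Int.cast : ℤ → ZMod 5) h0
      unfold nf at *
      push_cast at this
      exact this
    obtain ⟨a1, a2, a3⟩ := nf_mod _ _ _ h1
    obtain ⟨x', rfl⟩ := (ZMod.intCast_zmod_eq_zero_iff_dvd x 5).mp a1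
    obtain ⟨y', rfl⟩ := (ZMod.intCast_zmod_eq_zero_iff_dvd y 5).mp a2
    obtain ⟨z', rfl⟩ := (ZMod.intCast_zmod_eq_zero_iff_dvd z 5).mp a3
    have h2 : nf x' y' z' = 0 := by
      have : (125 : ℤ) * nf x' y' z' = 0 := by
        rw [← h0]
        unfold nf
        push_cast
        ring
      omega
    by_cases hz : x' = 0 ∧ y' = 0 ∧ z' = 0
    · obtain ⟨rfl, rfl, rfl⟩ := hz
      simp
    · exfalso
      apply hz
      apply ih x' y' z' _ h2
      push_cast at h
      omega

lemma indep (l : ℝ) (hl : l ^ 3 + 3 * l ^ 2 - 15 * l - 46 = 0) (x y z : ℤ)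
    (h : (x : ℝ) + y * l + z * l ^ 2 = 0) : x = 0 ∧ y = 0 ∧ z = 0 := by
  apply nf_int _ x y z le_rfl
  have h1 : (46 * z : ℝ) + (x + 15 * z) * l + (y - 3 * z) * l ^ 2 = 0 := by
    linear_combination l * h - z * hl
  have h2 : (46 * y - 138 * z : ℝ) + (15 * y + z) * l + (x - 3 * y + 24 * z) * l ^ 2 = 0 := by
    linear_combination l * h1 - (y - 3 * z) * hl
  have : ((nf x y z : ℤ) : ℝ) = 0 := by
    unfold nf
    push_cast
    linear_combination ((x + 15 * z) * (x - 3 * y + 24 * z) - (y - 3 * z) * (15 * y + z)) * h -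
      (y * (x - 3 * y + 24 * z) - z * (15 * y + z)) * h1 +
      (y * (y - 3 * z) - z * (x + 15 * z)) * h2
  exact_mod_cast this

/-- A root of modulus `l` of a monic integer cubic forces the cubic to be `f` or its mirror. -/
lemma cubic (l : ℝ) (hl : l ^ 3 + 3 * l ^ 2 - 15 * l - 46 = 0) (a b D : ℤ) (μ : ℂ)
    (hμ : l = ‖μ‖) (h : μ ^ 3 - a * μ ^ 2 + b * μ - D = 0) :
    a = -3 ∨ (a = 3 ∧ b = -15 ∧ D = -46) := by
  have hn : l ^ 2 = μ.re ^ 2 + μ.im ^ 2 := by
    rw [hμ, Complex.sq_norm, Complex.normSq_apply]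
    ring
  have hre := congrArg Complex.re h
  have him := congrArg Complex.im h
  simp [pow_succ] at hre him
  set x := μ.re
  set y := μ.im
  by_cases hy : y = 0
  · rw [hy] at hn hre
    have : (x - l) * (x + l) = 0 := by linear_combination -hn
    rcases mul_eq_zero.mp this with h1 | h1
    · have hx : x = l := by linarith
      rw [hx] at hre
      have := indep l hl (46 - D) (b + 15) (-a - 3) (by push_cast; linear_combination hre - hl)
      omega
    · have hx : x = -l := by linarith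
      rw [hx] at hre
      have := indep l hl (-46 - D) (-b - 15) (3 - a) (by push_cast; linear_combination hre + hl)
      omega
  · exfalso
    have e1 : y * (3 * x ^ 2 - y ^ 2 - 2 * a * x + b) = 0 := by linear_combination him
    have e2 : (b : ℝ) = l ^ 2 + 2 * x * (a - 2 * x) := by
      have := (mul_eq_zero.mp e1).resolve_left hy
      linear_combination this - hn
    have e3 : (D : ℝ) = (a - 2 * x) * l ^ 2 := by
      rw [e2] at hre
      linear_combination -hre + (x - (a - 2 * x) + 0) * hn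
    have e4 : (l ^ 2) ^ 3 - b * (l ^ 2) ^ 2 + a * D * l ^ 2 - D ^ 2 = 0 := by
      rw [e2, e3]
      ring
    have := indep l hl (2116 - D ^ 2 + (39 - b) * (-138)) ((39 - b) * 1)
      (a * D - 501 + (39 - b) * 24) (by
        push_cast
        linear_combination e4 - (l ^ 3 - 3 * l ^ 2 - 15 * l + 46 + (39 - b) * (l - 3)) * hl)
    obtain ⟨t1, t2, t3⟩ := this
    have hb : b = 39 := by omega
    subst hb
    have t4 : (D - 46) * (D + 46) = 0 := by linear_combination -t1
    rcases mul_eq_zero.mp t4 with h1 | h1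
    · have : D = 46 := by omega
      subst this
      omega
    · have : D = -46 := by omega
      subst this
      omega

def A4 : Matrix (Fin 4) (Fin 4) ℕ := !![0, 1, 0, 0; 12, 0, 1, 0; 1, 0, 0, 6; 1, 0, 2, 0]

lemma A4_prim : Primitive A4 := ⟨6, by norm_num, by decide⟩

lemma A4_spec (μ : ℂ) : μ ∈ spectrum ℂ (A4.map (Nat.cast : ℕ → ℂ)) ↔
    (μ - 3) * (μ ^ 3 + 3 * μ ^ 2 - 15 * μ - 46) = 0 := by
  rw [mem_spec]
  have : (Matrix.scalar (Fin 4) μ - A4.map (Nat.cast : ℕ → ℂ)) =
      !![μ, -1, 0, 0; -12, μ, -1, 0; -1, 0, μ, -6; -1, 0, -2, μ] := by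
    ext i j
    fin_cases i <;> fin_cases j <;> simp [A4]
  rw [this]
  have : (!![μ, -1, 0, 0; -12, μ, -1, 0; -1, 0, μ, -6; -1, 0, -2, μ] :
      Matrix (Fin 4) (Fin 4) ℂ).det = (μ - 3) * (μ ^ 3 + 3 * μ ^ 2 - 15 * μ - 46) := by
    simp [Matrix.det_succ_row_zero, Fin.sum_univ_succ, Fin.succAbove]
    ring
  rw [this]

theorem result : (∃ l, IsGreatest realRoots l) ∧
    ∀ l, IsGreatest realRoots l → IsLeast (sizes l) 4 := by
  obtain ⟨r, r1, r2, hr⟩ := exists_root
  refine ⟨⟨r, hr⟩, fun l hl => ?_⟩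
  have : l = r := hl.unique hr
  subst this
  have h0 : l ^ 3 + 3 * l ^ 2 - 15 * l - 46 = 0 := hl.1
  constructor
  · refine ⟨A4, A4_prim, ⟨l, ?_, ?_⟩, ?_⟩
    · rw [A4_spec]
      have : (l : ℂ) ^ 3 + 3 * l ^ 2 - 15 * l - 46 = 0 := by exact_mod_cast h0
      rw [this, mul_zero]
    · rw [Complex.norm_real, Real.norm_eq_abs, abs_of_pos (by linarith)]
    · rintro _ ⟨μ, hμ, rfl⟩
      rw [A4_spec] at hμ
      have h0' : (l : ℂ) ^ 3 + 3 * l ^ 2 - 15 * l - 46 = 0 := by exact_mod_cast h0
      rcases mul_eq_zero.mp hμ with h | h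
      · have : μ = 3 := by linear_combination h
        rw [this]
        simp
        linarith
      · have h2 : (μ - l) * (μ ^ 2 + (3 + l) * μ + (l ^ 2 + 3 * l - 15)) = 0 := by
          linear_combination h - h0'
        rcases mul_eq_zero.mp h2 with h3 | h3
        · have : μ = l := by linear_combination h3
          rw [this, Complex.norm_real, Real.norm_eq_abs, abs_of_pos (by linarith)]
        · have hre := congrArg Complex.re h3
          have him := congrArg Complex.im h3
          simp [pow_succ] at hre him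
          have hn : ‖μ‖ ^ 2 = μ.re ^ 2 + μ.im ^ 2 := by
            rw [Complex.sq_norm, Complex.normSq_apply]
            ring
          set x := μ.re
          set y := μ.im
          apply le_of_sq_le_sq _ (by linarith)
          rw [hn]
          have e1 : y * (2 * x + 3 + l) = 0 := by linear_combination him
          rcases mul_eq_zero.mp e1 with hy | hy
          · rw [hy] at hre ⊢
            have e2 : (x + l) * (x + 3) = 15 - l ^ 2 := by linear_combination hre
            have e3 : 15 - l ^ 2 < 0 := by nlinarith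
            have e4 : -l < x := by
              by_contra hc
              nlinarith
            have e5 : x < 0 := by
              by_contra hc
              nlinarith
            nlinarith
          · have : x ^ 2 + y ^ 2 = l ^ 2 + 3 * l - 15 := by linear_combination -hre + x * hy
            linarith
  · rintro n ⟨A, -, ⟨μ, hμ, hn⟩, -⟩
    by_contra hlt
    rw [mem_spec] at hμ
    have hn4 : n < 4 := by omega
    interval_cases n
    · simp at hμ
    · rw [Matrix.det_fin_one] at hμ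
      simp at hμ
      have := cubic l h0 (A 0 0) 0 0 μ hn (by push_cast; linear_combination μ ^ 2 * hμ)
      omega
    · rw [Matrix.det_fin_two] at hμ
      simp at hμ
      have := cubic l h0 (A 0 0 + A 1 1) (A 0 0 * A 1 1 - A 0 1 * A 1 0) 0 μ hn
        (by push_cast; linear_combination μ * hμ)
      omega
    · rw [Matrix.det_fin_three] at hμ
      simp at hμ
      have := cubic l h0 (A 0 0 + A 1 1 + A 2 2)
        (A 0 0 * A 1 1 + A 0 0 * A 2 2 + A 1 1 * A 2 2 - A 0 1 * A 1 0 - A 0 2 * A 2 0 -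
          A 1 2 * A 2 1)
        (A 0 0 * A 1 1 * A 2 2 + A 0 1 * A 1 2 * A 2 0 + A 0 2 * A 1 0 * A 2 1 -
          A 0 0 * (A 1 2 * A 2 1) - A 1 1 * (A 0 2 * A 2 0) - A 2 2 * (A 0 1 * A 1 0)) μ hn
        (by push_cast; linear_combination hμ)
      rcases this with h | ⟨h1, h2, h3⟩
      · omega
      · have w1 : (0 : ℤ) ≤ A 0 1 * A 1 0 := by positivity
        have w2 : (0 : ℤ) ≤ A 0 2 * A 2 0 := by positivity
        have w3 : (0 : ℤ) ≤ A 1 2 * A 2 1 := by positivity
        have c1 : (0 : ℤ) ≤ A 0 1 * A 1 2 * A 2 0 := by positivity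
        have c2 : (0 : ℤ) ≤ A 0 2 * A 1 0 * A 2 1 := by positivity
        generalize ((A 0 1 : ℤ) * A 1 0) = u at *
        generalize ((A 0 2 : ℤ) * A 2 0) = v at *
        generalize ((A 1 2 : ℤ) * A 2 1) = w at *
        generalize ((A 0 1 : ℤ) * A 1 2 * A 2 0) = p at *
        generalize ((A 0 2 : ℤ) * A 1 0 * A 2 1) = q at *
        generalize A 0 0 = a at *
        generalize A 1 1 = b at *
        generalize A 2 2 = c at *
        have ha : a ≤ 3 := by omega
        have hb : b ≤ 3 := by omega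
        have hc : c ≤ 3 := by omega
        interval_cases a <;> interval_cases b <;> interval_cases c <;> omega

end Pool.Agent.Results.MP_e10d7f_nt.Four
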